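import Mathlib
import Pool.Agent.Helper58.LT.Ratio

/-!
# PS3 (a): the completely additive extension of `lam`, spacing for products
-/

namespace Pool.Agent.Helper33.PS3

open Finset Pool.Agent.Helper58.LT

/-- the completely additive extension of `lam` -/
noncomputable def LC (n : ℕ) : ℝ := (n.primeFactorsList.map lam).sum

theorem LC_one : LC 1 = 0 := by simp [LC]

theorem LC_mul {a b : ℕ} (ha : 0 < a) (hb : 0 < b) : LC (a * b) = LC a + LC b := by
  unfold LC
  rw [((Nat.perm_primeFactorsList_mul ha.ne' hb.ne').map lam).sum_eq, List.map_append,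
    List.sum_append]

theorem LC_prime {p : ℕ} (hp : p.Prime) : LC p = lam p := by
  unfold LC
  rw [Nat.primeFactorsList_prime hp]
  simp

theorem LC_prod {ι : Type*} (S : Finset ι) (f : ι → ℕ) (hf : ∀ i ∈ S, 0 < f i) :
    LC (∏ i ∈ S, f i) = ∑ i ∈ S, LC (f i) := by
  classical
  induction S using Finset.induction_on with
  | empty => simp [LC_one]
  | insert a S ha ih =>
    rw [prod_insert ha, sum_insert ha, LC_mul (hf a (mem_insert_self _ _))
      (prod_pos fun i hi => hf i (mem_insert_of_mem hi)), ih fun i hi => hf i (mem_insert_of_mem hi)]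

theorem LC_sqfree {n : ℕ} (hn : Squarefree n) : LC n = lam n := by
  induction n using Nat.strong_induction_on with
  | _ n ih =>
    rcases Nat.lt_or_ge 1 n with h | h
    · obtain ⟨p, hp, c, hc⟩ := Nat.exists_prime_and_dvd (show n ≠ 1 by omega)
      subst hc
      have hc0 : 0 < c := by
        rcases Nat.eq_zero_or_pos c with h0 | h0
        · rw [h0, mul_zero] at h; omega
        · exact h0
      have hcn : c < p * c := by
        have := hp.two_le
        nlinarith
      rw [LC_mul hp.pos hc0, LC_prime hp, lam_mul_of_squarefree hn,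
        ih c hcn (hn.squarefree_of_dvd (dvd_mul_left _ _))]
    · have h1 : n = 1 := by
        have := Nat.pos_of_ne_zero hn.ne_zero
        omega
      rw [h1, LC_one, lam_one]

theorem spacing_LC {A B : ℕ} (hA : 0 < A) (hB : 0 < B) {Z : ℝ} (hZ : (A : ℝ) * B ≤ Z)
    (h : |LC A - LC B| < 1 / Z) : A = B := by
  have key : ∀ C : ℕ, 0 < C → ∃ (m : ℕ) (x : Fin m → ℕ), (∀ i, (x i).Prime) ∧ ∏ i, x i = C ∧
      ∑ i, lam (x i) = LC C := by
    intro C hC
    refine ⟨C.primeFactorsList.length, fun i => C.primeFactorsList.get i, ?_, ?_, ?_⟩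
    · intro i
      exact Nat.prime_of_mem_primeFactorsList (List.get_mem _ _)
    · rw [← List.prod_ofFn, List.ofFn_get]
      exact Nat.prod_primeFactorsList hC.ne'
    · unfold LC
      rw [← List.sum_ofFn]
      congr 1
      have h1 := List.map_ofFn (f := fun i => C.primeFactorsList.get i) (g := lam)
      rw [List.ofFn_get] at h1
      exact h1.symm
  obtain ⟨m, x, hx1, hx2, hx3⟩ := key A hA
  obtain ⟨n, y, hy1, hy2, hy3⟩ := key B hB
  have h1 := spacing_tuple x y (fun i => (hx1 i).squarefree) (fun i => (hy1 i).squarefree) (Z := Z)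
    (by rw [hx2, hy2]; exact hZ) (by rw [hx3, hy3]; exact h)
  rw [hx2, hy2] at h1
  exact h1

end Pool.Agent.Helper33.PS3
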