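import Mathlib
import Pool.Agent.Helper33.PS3.LC

/-!
# PS3 (c): preparations for the key count
-/

namespace Pool.Agent.Helper33.PS3

open Finset Pool.Agent.Helper58.LT

/-- the value `psi t + psi u + sum psi p` -/
noncomputable def Fz (N m : ℕ) (z : ℕ × ℕ × (Fin m → ℕ)) : ℤ :=
  psi N z.1 + (psi N z.2.1 + sm' (psi N) z.2.2)

/-- the product `t u p ...` -/
def Mz {m : ℕ} (z : ℕ × ℕ × (Fin m → ℕ)) : ℕ := z.1 * (z.2.1 * ∏ i, z.2.2 i)

theorem Mz_pos {m : ℕ} {z : ℕ × ℕ × (Fin m → ℕ)} (h1 : 0 < z.1) (h2 : 0 < z.2.1)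
    (h3 : ∀ i, (z.2.2 i).Prime) : 0 < Mz z :=
  Nat.mul_pos h1 (Nat.mul_pos h2 (prod_pos fun i _ => (h3 i).pos))

/-- rounding -/
theorem Fz_bound {N m : ℕ} {z : ℕ × ℕ × (Fin m → ℕ)} (h1 : Squarefree z.1) (h2 : Squarefree z.2.1)
    (h3 : ∀ i, (z.2.2 i).Prime) :
    (N : ℝ) * LC (Mz z) - (m + 2) ≤ Fz N m z ∧ (Fz N m z : ℝ) ≤ N * LC (Mz z) := by
  have e1 : LC (Mz z) = lam z.1 + (lam z.2.1 + ∑ i, lam (z.2.2 i)) := by
    unfold Mz
    have hp : 0 < ∏ i, z.2.2 i := prod_pos fun i _ => (h3 i).pos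
    have h1p := Nat.pos_of_ne_zero h1.ne_zero
    have h2p := Nat.pos_of_ne_zero h2.ne_zero
    rw [LC_mul h1p (Nat.mul_pos h2p hp), LC_mul h2p hp, LC_sqfree h1, LC_sqfree h2,
      LC_prod _ _ fun i _ => (h3 i).pos]
    congr 2
    exact sum_congr rfl fun i _ => LC_prime (h3 i)
  have h4 := sum_psi_le (N := N) z.2.2
  have h5 := sum_psi_gt (N := N) z.2.2
  have h6 : ((psi N z.1 : ℤ) : ℝ) ≤ N * lam z.1 := Int.floor_le _
  have h7 : (N : ℝ) * lam z.1 - 1 ≤ ((psi N z.1 : ℤ) : ℝ) := (Int.sub_one_lt_floor _).le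
  have h8 : ((psi N z.2.1 : ℤ) : ℝ) ≤ N * lam z.2.1 := Int.floor_le _
  have h9 : (N : ℝ) * lam z.2.1 - 1 ≤ ((psi N z.2.1 : ℤ) : ℝ) := (Int.sub_one_lt_floor _).le
  unfold Fz
  push_cast
  rw [e1, mul_add, mul_add]
  constructor
  · linarith
  · linarith

theorem card_pf_M {m w : ℕ} {t u : ℕ} {p : Fin m → ℕ} (ht : Squarefree t)
    (htw : #t.primeFactors ≤ w) (hu : Squarefree u) (huw : #u.primeFactors ≤ w)
    (hp : ∀ i, (p i).Prime) : #(t * (u * ∏ i, p i)).primeFactors ≤ 2 * w + m := by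
  classical
  have hP0 : ∏ i, p i ≠ 0 := prod_ne_zero_iff.2 fun i _ => (hp i).ne_zero
  rw [Nat.primeFactors_mul ht.ne_zero (mul_ne_zero hu.ne_zero hP0),
    Nat.primeFactors_mul hu.ne_zero hP0]
  have h1 : #(∏ i, p i).primeFactors ≤ m := by
    have h2 : (∏ i, p i).primeFactors ⊆ univ.image p := by
      intro q hq
      have hqp := Nat.prime_of_mem_primeFactors hq
      have hd := Nat.dvd_of_mem_primeFactors hq
      rw [hqp.prime.dvd_finsetProd_iff] at hd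
      obtain ⟨i, _, hi⟩ := hd
      rw [mem_image]
      exact ⟨i, mem_univ _, ((Nat.prime_dvd_prime_iff_eq hqp (hp i)).1 hi).symm⟩
    calc _ ≤ #(univ.image p) := card_le_card h2
      _ ≤ #(univ : Finset (Fin m)) := card_image_le
      _ = m := by simp
  have h3 := card_union_le t.primeFactors (u.primeFactors ∪ (∏ i, p i).primeFactors)
  have h4 := card_union_le u.primeFactors (∏ i, p i).primeFactors
  omega

/-- given product: few triples -/
theorem fiber1 {Lam U K : Finset ℕ} {m w : ℕ} (hL : ∀ t ∈ Lam, Squarefree t ∧ #t.primeFactors ≤ w)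
    (hU : ∀ u ∈ U, Squarefree u ∧ #u.primeFactors ≤ w) (hK : ∀ p ∈ K, p.Prime)
    (z : ℕ × ℕ × (Fin m → ℕ)) (hz : z ∈ Lam ×ˢ U ×ˢ tup K m) :
    #{z' ∈ Lam ×ˢ U ×ˢ tup K m | Mz z = Mz z'} ≤ 2 ^ (2 * (2 * w + m)) * (2 * w + m) ^ m := by
  classical
  obtain ⟨hz1, hz2⟩ := mem_product.1 hz
  obtain ⟨hz2, hz3⟩ := mem_product.1 hz2
  rw [mem_tup] at hz3
  have hM0 : Mz z ≠ 0 := (Mz_pos (Nat.pos_of_ne_zero (hL _ hz1).1.ne_zero)
    (Nat.pos_of_ne_zero (hU _ hz2).1.ne_zero) fun i => hK _ (hz3 i)).ne'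
  have hc : #(Mz z).primeFactors ≤ 2 * w + m :=
    card_pf_M (hL _ hz1).1 (hL _ hz1).2 (hU _ hz2).1 (hU _ hz2).2 fun i => hK _ (hz3 i)
  have h1 : #{z' ∈ Lam ×ˢ U ×ˢ tup K m | Mz z = Mz z'} ≤
      #((Mz z).primeFactors.powerset ×ˢ (Mz z).primeFactors.powerset ×ˢ
        tup (Mz z).primeFactors m) := by
    refine card_le_card_of_injOn (fun z' => (z'.1.primeFactors, z'.2.1.primeFactors, z'.2.2)) ?_ ?_
    · intro z' hz'
      rw [mem_coe, mem_filter] at hz'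
      obtain ⟨hz', h4⟩ := hz'
      obtain ⟨h1, h2⟩ := mem_product.1 hz'
      obtain ⟨h2, h3⟩ := mem_product.1 h2
      rw [mem_tup] at h3
      rw [mem_coe, mem_product, mem_product, mem_powerset, mem_powerset, mem_tup]
      unfold Mz at h4
      refine ⟨?_, ?_, ?_⟩
      · refine Nat.primeFactors_mono ?_ hM0
        unfold Mz
        rw [h4]
        exact dvd_mul_right _ _
      · refine Nat.primeFactors_mono ?_ hM0
        unfold Mz
        rw [h4]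
        exact (dvd_mul_right _ _).trans (dvd_mul_left _ _)
      · intro i
        refine Nat.mem_primeFactors.2 ⟨hK _ (h3 i), ?_, hM0⟩
        unfold Mz
        rw [h4]
        exact ((dvd_prod_of_mem _ (mem_univ i)).trans (dvd_mul_left _ _)).trans (dvd_mul_left _ _)
    · intro a ha b hb hab
      rw [mem_coe, mem_filter] at ha hb
      obtain ⟨a1, a2⟩ := mem_product.1 ha.1
      obtain ⟨a2, -⟩ := mem_product.1 a2
      obtain ⟨b1, b2⟩ := mem_product.1 hb.1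
      obtain ⟨b2, -⟩ := mem_product.1 b2
      simp only [Prod.mk.injEq] at hab
      obtain ⟨e1, e2, e3⟩ := hab
      have f1 := Nat.prod_primeFactors_of_squarefree (hL _ a1).1
      have f2 := Nat.prod_primeFactors_of_squarefree (hL _ b1).1
      have f3 := Nat.prod_primeFactors_of_squarefree (hU _ a2).1
      have f4 := Nat.prod_primeFactors_of_squarefree (hU _ b2).1
      rw [e1, f2] at f1
      rw [e2, f4] at f3
      exact Prod.ext f1.symm (Prod.ext f3.symm e3)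
  refine h1.trans ?_
  rw [card_product, card_product, card_powerset, card_tup, ← mul_assoc, ← pow_add]
  exact Nat.mul_le_mul (Nat.pow_le_pow_right two_pos (by omega)) (Nat.pow_le_pow_left hc _)

/-- a divisor of size about `D` -/
theorem exists_mid_divisor {u g : ℕ} {y D : ℝ} (hu : 0 < u)
    (hs : ∀ q, q.Prime → q ∣ u → (q : ℝ) < y) (hg : g ∣ u) (hgD : (g : ℝ) ≤ D) (hD : D ≤ u)
    (hy : 1 ≤ y) : ∃ d, g ∣ d ∧ d ∣ u ∧ D ≤ d ∧ (d : ℝ) ≤ D * y := by
  classical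
  have hg0 : 0 < g := Nat.pos_of_dvd_of_pos hg hu
  have hD0 : 0 ≤ D := le_trans (Nat.cast_nonneg _) hgD
  have hne : (u.divisors.filter (fun d => g ∣ d ∧ D ≤ d)).Nonempty :=
    ⟨u, mem_filter.2 ⟨Nat.mem_divisors.2 ⟨dvd_rfl, hu.ne'⟩, hg, hD⟩⟩
  obtain ⟨d, hd, hmin⟩ := exists_min_image _ (fun d => d) hne
  rw [mem_filter, Nat.mem_divisors] at hd
  obtain ⟨⟨hdu, -⟩, hgd, hDd⟩ := hd
  refine ⟨d, hgd, hdu, hDd, ?_⟩
  obtain ⟨c, rfl⟩ := hgd
  rcases Nat.lt_or_ge 1 c with hc | hc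
  · obtain ⟨q, hq, b, rfl⟩ := Nat.exists_prime_and_dvd (show c ≠ 1 by omega)
    have hb0 : 0 < b := by
      rcases Nat.eq_zero_or_pos b with h0 | h0
      · rw [h0, mul_zero] at hc; omega
      · exact h0
    have hqu : q ∣ u := ((dvd_mul_right q b).trans (dvd_mul_left _ g)).trans hdu
    have hlt : g * b < g * (q * b) := by
      apply Nat.mul_lt_mul_of_pos_left _ hg0
      have := hq.two_le
      nlinarith
    have hnot : ¬ D ≤ ((g * b : ℕ) : ℝ) := by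
      intro hcon
      have h1 := hmin (g * b) (mem_filter.2 ⟨Nat.mem_divisors.2 ⟨?_, hu.ne'⟩, dvd_mul_right _ _,
        hcon⟩)
      · omega
      · refine Dvd.dvd.trans ?_ hdu
        exact Nat.mul_dvd_mul_left g (dvd_mul_left b q)
    have hqy := (hs q hq hqu).le
    rw [not_le] at hnot
    have e1 : ((g * (q * b) : ℕ) : ℝ) = ((g * b : ℕ) : ℝ) * q := by
      push_cast
      ring
    rw [e1]
    exact mul_le_mul hnot.le hqy (Nat.cast_nonneg _) hD0
  · have h1 : g * c ≤ g := by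
      calc g * c ≤ g * 1 := Nat.mul_le_mul_left g hc
        _ = g := mul_one g
    have h2 : ((g * c : ℕ) : ℝ) ≤ g := by exact_mod_cast h1
    nlinarith

theorem smooth_rough {a b P Q : ℕ} (ha : 0 < a) (haQ : a.Coprime Q) (hbP : b.Coprime P)
    (h : a * P = b * Q) : a = b ∧ P = Q := by
  have h1 : a ∣ b := haQ.dvd_of_dvd_mul_right (h ▸ dvd_mul_right a P)
  have h2 : b ∣ a := hbP.dvd_of_dvd_mul_right (h.symm ▸ dvd_mul_right b Q)
  have h3 := Nat.dvd_antisymm h1 h2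
  subst h3
  exact ⟨rfl, Nat.eq_of_mul_eq_mul_left ha h⟩

theorem cop_smooth {u : ℕ} {y P₀ : ℝ} {ι : Type*} (S : Finset ι) (p : ι → ℕ)
    (hs : ∀ q, q.Prime → q ∣ u → (q : ℝ) < y) (hyP : y ≤ P₀)
    (hp : ∀ i ∈ S, (p i).Prime ∧ P₀ ≤ p i) : u.Coprime (∏ i ∈ S, p i) := by
  apply Nat.Coprime.prod_right
  intro i hi
  obtain ⟨h1, h2⟩ := hp i hi
  rw [Nat.coprime_comm, Nat.Prime.coprime_iff_not_dvd h1]
  intro h3
  have := hs _ h1 h3
  linarith

theorem pair_cop {u u' g d : ℕ} {y P₀ G₀ : ℝ} {m : ℕ} {p p' : Fin m → ℕ} (I : Finset (Fin m))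
    (hu : 0 < u) (hsu : ∀ q, q.Prime → q ∣ u → (q : ℝ) < y)
    (hsu' : ∀ q, q.Prime → q ∣ u' → (q : ℝ) < y)
    (hp : ∀ i, (p i).Prime ∧ P₀ ≤ p i) (hp' : ∀ i, (p' i).Prime ∧ P₀ ≤ p' i)
    (hyP : y ≤ P₀) (hGP : G₀ ≤ P₀) (hg : g = Nat.gcd u u') (hgd : g ∣ d) (hdu : d ∣ u)
    (hG : ((Nat.gcd (u * ∏ i, p i) (u' * ∏ i, p' i) : ℕ) : ℝ) < G₀) :
    Nat.Coprime (u / d * ∏ i ∈ I, p i) (u' / g * ∏ i, p' i) := by
  have hgpos : 0 < Nat.gcd u u' := Nat.gcd_pos_of_pos_left _ hu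
  have hgu' : g ∣ u' := by rw [hg]; exact Nat.gcd_dvd_right _ _
  rw [Nat.coprime_mul_iff_left, Nat.coprime_mul_iff_right, Nat.coprime_mul_iff_right]
  refine ⟨⟨?_, ?_⟩, ?_, ?_⟩
  · have h1 : Nat.Coprime (u / g) (u' / g) := by
      rw [hg]
      exact Nat.coprime_div_gcd_div_gcd hgpos
    exact h1.coprime_dvd_left (Nat.div_dvd_div_left hdu hgd)
  · refine cop_smooth univ p' (y := y) (P₀ := P₀) ?_ hyP fun i _ => hp' i
    intro q hq hqd
    exact hsu q hq (hqd.trans (Nat.div_dvd_of_dvd hdu))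
  · refine (cop_smooth I p (y := y) (P₀ := P₀) ?_ hyP fun i _ => hp i).symm
    intro q hq hqd
    exact hsu' q hq (hqd.trans (Nat.div_dvd_of_dvd hgu'))
  · apply Nat.Coprime.prod_left
    intro i _
    apply Nat.Coprime.prod_right
    intro j _
    rw [Nat.coprime_primes (hp i).1 (hp' j).1]
    intro heq
    have h1 : p i ∣ Nat.gcd (u * ∏ i, p i) (u' * ∏ i, p' i) := by
      apply Nat.dvd_gcd
      · exact (dvd_prod_of_mem _ (mem_univ i)).trans (dvd_mul_left _ _)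
      · rw [heq]
        exact (dvd_prod_of_mem _ (mem_univ j)).trans (dvd_mul_left _ _)
    have h2 : 0 < Nat.gcd (u * ∏ i, p i) (u' * ∏ i, p' i) :=
      Nat.gcd_pos_of_pos_left _ (Nat.mul_pos hu (prod_pos fun i _ => (hp i).1.pos))
    have h3 : ((p i : ℕ) : ℝ) ≤ ((Nat.gcd (u * ∏ i, p i) (u' * ∏ i, p' i) : ℕ) : ℝ) := by
      exact_mod_cast Nat.le_of_dvd h2 h1
    have h4 := (hp i).2
    linarith

theorem prod_le_real {ι : Type*} (S : Finset ι) (p : ι → ℕ) {P : ℝ}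
    (hp : ∀ i ∈ S, (p i : ℝ) ≤ P) : ((∏ i ∈ S, p i : ℕ) : ℝ) ≤ P ^ #S := by
  push_cast
  calc ∏ i ∈ S, (p i : ℝ) ≤ ∏ _i ∈ S, P := prod_le_prod (fun i _ => Nat.cast_nonneg _) hp
    _ = P ^ #S := by rw [prod_const]

/-- entries of a tuple of primes with the same product -/
theorem mem_of_prod_eq {m : ℕ} (I : Finset (Fin m)) {p q : Fin m → ℕ} (hp : ∀ i, (p i).Prime)
    (hq : ∀ i, (q i).Prime) (h : ∏ i ∈ I, p i = ∏ i ∈ I, q i) {i : Fin m} (hi : i ∈ I) :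
    p i ∈ univ.image q := by
  have h1 : p i ∣ ∏ i ∈ I, q i := by
    rw [← h]
    exact dvd_prod_of_mem _ hi
  rw [(hp i).prime.dvd_finsetProd_iff] at h1
  obtain ⟨j, _, hj⟩ := h1
  rw [mem_image]
  exact ⟨j, mem_univ _, ((Nat.prime_dvd_prime_iff_eq (hp i) (hq j)).1 hj).symm⟩

theorem card_divisors_le {d w : ℕ} (hd : Squarefree d) (hw : #d.primeFactors ≤ w) :
    #d.divisors ≤ 2 ^ w := by
  have h1 : #d.divisors ≤ #d.primeFactors.powerset := by
    refine card_le_card_of_injOn (fun c => c.primeFactors) ?_ ?_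
    · intro c hc
      rw [mem_coe, Nat.mem_divisors] at hc
      rw [mem_coe, mem_powerset]
      exact Nat.primeFactors_mono hc.1 hc.2
    · intro a ha b hb hab
      rw [mem_coe, Nat.mem_divisors] at ha hb
      have f1 := Nat.prod_primeFactors_of_squarefree (hd.squarefree_of_dvd ha.1)
      have f2 := Nat.prod_primeFactors_of_squarefree (hd.squarefree_of_dvd hb.1)
      simp only at hab
      rw [hab, f2] at f1
      exact f1.symm
  refine h1.trans ?_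
  rw [card_powerset]
  exact Nat.pow_le_pow_right two_pos hw

end Pool.Agent.Helper33.PS3
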