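import Mathlib
import Pool.Agent.Helper33.PS3.KeyPre

/-!
# PS3 (c): the key count
-/

namespace Pool.Agent.Helper33.PS3

open Finset Pool.Agent.Helper58.LT

/-- hypotheses of the key count -/
structure KeyHyp (N m e w : ℕ) (Lam U K : Finset ℕ) (T R P P₀ G₀ D₁ y : ℝ) : Prop where
  em : e ≤ m
  lam1 : ∀ t ∈ Lam, Squarefree t ∧ #t.primeFactors ≤ w
  lam2 : ∀ t ∈ Lam, (t : ℝ) ≤ T
  u1 : ∀ u ∈ U, Squarefree u ∧ #u.primeFactors ≤ w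
  u2 : ∀ u ∈ U, ∀ q, q.Prime → q ∣ u → (q : ℝ) < y
  u3 : ∀ u ∈ U, D₁ ≤ u ∧ (u : ℝ) ≤ R
  k1 : ∀ p ∈ K, p.Prime
  k2 : ∀ p ∈ K, P₀ ≤ p ∧ (p : ℝ) ≤ P
  yP : y ≤ P₀
  y1 : 1 ≤ y
  GP : G₀ ≤ P₀
  GD : G₀ ≤ D₁
  G1 : 1 ≤ G₀
  T1 : 1 ≤ T
  R1 : 1 ≤ R
  P1 : 1 ≤ P
  H1 : 2 * ((m : ℝ) + 2) * (T * (R * P ^ m / G₀)) ^ 2 ≤ N
  H4 : 4 * ((m : ℝ) + 2) * (R / D₁ * P ^ e * (R * P ^ m)) ^ 2 ≤ N

/-- the first `m - e` indices -/
def I1 (m e : ℕ) : Finset (Fin m) := univ.filter (fun i : Fin m => (i : ℕ) < m - e)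

/-- the other indices -/
def I2 (m e : ℕ) : Finset (Fin m) := univ.filter (fun i : Fin m => ¬ (i : ℕ) < m - e)

theorem prod_I {m : ℕ} (e : ℕ) (f : Fin m → ℕ) :
    ∏ i, f i = (∏ i ∈ I1 m e, f i) * ∏ i ∈ I2 m e, f i :=
  (prod_filter_mul_prod_filter_not univ (fun i : Fin m => (i : ℕ) < m - e) f).symm

section

variable {N m e w : ℕ} {Lam U K : Finset ℕ} {T R P P₀ G₀ D₁ y : ℝ}

theorem KeyHyp.lc_diff (h : KeyHyp N m e w Lam U K T R P P₀ G₀ D₁ y)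
    {z z' : ℕ × ℕ × (Fin m → ℕ)} (hz : z ∈ Lam ×ˢ U ×ˢ tup K m) (hz' : z' ∈ Lam ×ˢ U ×ˢ tup K m)
    (hF : Fz N m z = Fz N m z') : |(N : ℝ) * (LC (Mz z) - LC (Mz z'))| ≤ m + 2 := by
  obtain ⟨h1, h2⟩ := mem_product.1 hz
  obtain ⟨h2, h3⟩ := mem_product.1 h2
  obtain ⟨h1', h2'⟩ := mem_product.1 hz'
  obtain ⟨h2', h3'⟩ := mem_product.1 h2'
  rw [mem_tup] at h3 h3'
  have b1 := Fz_bound (N := N) (h.lam1 _ h1).1 (h.u1 _ h2).1 fun i => h.k1 _ (h3 i)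
  have b2 := Fz_bound (N := N) (h.lam1 _ h1').1 (h.u1 _ h2').1 fun i => h.k1 _ (h3' i)
  rw [hF] at b1
  rw [abs_le, mul_sub]
  constructor
  · linarith [b1.1, b1.2, b2.1, b2.2]
  · linarith [b1.1, b1.2, b2.1, b2.2]

theorem KeyHyp.case1 (h : KeyHyp N m e w Lam U K T R P P₀ G₀ D₁ y)
    {z z' : ℕ × ℕ × (Fin m → ℕ)} (hz : z ∈ Lam ×ˢ U ×ˢ tup K m) (hz' : z' ∈ Lam ×ˢ U ×ˢ tup K m)
    (hF : Fz N m z = Fz N m z')
    (hG : G₀ ≤ ((Nat.gcd (z.2.1 * ∏ i, z.2.2 i) (z'.2.1 * ∏ i, z'.2.2 i) : ℕ) : ℝ)) :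
    Mz z = Mz z' := by
  have hd := h.lc_diff hz hz' hF
  obtain ⟨h1, h2⟩ := mem_product.1 hz
  obtain ⟨h2, h3⟩ := mem_product.1 h2
  obtain ⟨h1', h2'⟩ := mem_product.1 hz'
  obtain ⟨h2', h3'⟩ := mem_product.1 h2'
  rw [mem_tup] at h3 h3'
  have t0 := Nat.pos_of_ne_zero (h.lam1 _ h1).1.ne_zero
  have t0' := Nat.pos_of_ne_zero (h.lam1 _ h1').1.ne_zero
  have u0 := Nat.pos_of_ne_zero (h.u1 _ h2).1.ne_zero
  have u0' := Nat.pos_of_ne_zero (h.u1 _ h2').1.ne_zero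
  have p0 : 0 < ∏ i, z.2.2 i := prod_pos fun i _ => (h.k1 _ (h3 i)).pos
  have p0' : 0 < ∏ i, z'.2.2 i := prod_pos fun i _ => (h.k1 _ (h3' i)).pos
  have hA : ((z.2.1 * ∏ i, z.2.2 i : ℕ) : ℝ) ≤ R * P ^ m := by
    have e1 := prod_le_real univ z.2.2 fun i _ => (h.k2 _ (h3 i)).2
    rw [card_univ, Fintype.card_fin] at e1
    rw [Nat.cast_mul]
    exact mul_le_mul (h.u3 _ h2).2 e1 (Nat.cast_nonneg _) (by linarith [h.R1])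
  have hA' : ((z'.2.1 * ∏ i, z'.2.2 i : ℕ) : ℝ) ≤ R * P ^ m := by
    have e1 := prod_le_real univ z'.2.2 fun i _ => (h.k2 _ (h3' i)).2
    rw [card_univ, Fintype.card_fin] at e1
    rw [Nat.cast_mul]
    exact mul_le_mul (h.u3 _ h2').2 e1 (Nat.cast_nonneg _) (by linarith [h.R1])
  unfold Mz at hd ⊢
  set A := z.2.1 * ∏ i, z.2.2 i with hAdef
  set A' := z'.2.1 * ∏ i, z'.2.2 i with hAdef'
  have hA0 : 0 < A := Nat.mul_pos u0 p0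
  have hA0' : 0 < A' := Nat.mul_pos u0' p0'
  obtain ⟨g, hg⟩ : ∃ g, g = Nat.gcd A A' := ⟨_, rfl⟩
  rw [← hg] at hG
  obtain ⟨a, ha⟩ : g ∣ A := hg ▸ Nat.gcd_dvd_left A A'
  obtain ⟨a', ha'⟩ : g ∣ A' := hg ▸ Nat.gcd_dvd_right A A'
  have hg0 : 0 < g := Nat.pos_of_mul_pos_right (ha ▸ hA0)
  have ha0 : 0 < a := Nat.pos_of_mul_pos_left (ha ▸ hA0)
  have ha0' : 0 < a' := Nat.pos_of_mul_pos_left (ha' ▸ hA0')
  have G0 : 0 < G₀ := by linarith [h.G1]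
  have hsz : ∀ b B : ℕ, B = g * b → (B : ℝ) ≤ R * P ^ m → (b : ℝ) ≤ R * P ^ m / G₀ := by
    intro b B hB hBR
    rw [le_div_iff₀ G0]
    refine le_trans ?_ hBR
    rw [hB, Nat.cast_mul, mul_comm]
    exact mul_le_mul_of_nonneg_right hG (Nat.cast_nonneg _)
  have ha1 := hsz a A ha hA
  have ha1' := hsz a' A' ha' hA'
  rw [ha, ha'] at hd
  have e1 : LC (z.1 * (g * a)) = LC g + LC (z.1 * a) := by
    rw [← LC_mul hg0 (Nat.mul_pos t0 ha0)]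
    congr 1
    ring
  have e2 : LC (z'.1 * (g * a')) = LC g + LC (z'.1 * a') := by
    rw [← LC_mul hg0 (Nat.mul_pos t0' ha0')]
    congr 1
    ring
  rw [e1, e2, add_sub_add_left_eq_sub] at hd
  set Z : ℝ := (T * (R * P ^ m / G₀)) ^ 2 with hZ
  have hR0 : 0 < R * P ^ m / G₀ := by
    have := h.R1
    have := h.P1
    positivity
  have hT0 : 0 < T := by linarith [h.T1]
  have hZ0 : 0 < Z := by positivity
  have hZle : ((z.1 * a : ℕ) : ℝ) * ((z'.1 * a' : ℕ) : ℝ) ≤ Z := by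
    rw [hZ, sq]
    have f1 : ((z.1 * a : ℕ) : ℝ) ≤ T * (R * P ^ m / G₀) := by
      rw [Nat.cast_mul]
      exact mul_le_mul (h.lam2 _ h1) ha1 (Nat.cast_nonneg _) hT0.le
    have f2 : ((z'.1 * a' : ℕ) : ℝ) ≤ T * (R * P ^ m / G₀) := by
      rw [Nat.cast_mul]
      exact mul_le_mul (h.lam2 _ h1') ha1' (Nat.cast_nonneg _) hT0.le
    exact mul_le_mul f1 f2 (Nat.cast_nonneg _) (by positivity)
  have hN : 2 * ((m : ℝ) + 2) * Z ≤ N := h.H1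
  have hN0 : (0 : ℝ) < N := lt_of_lt_of_le (by positivity) hN
  have hlt : |LC (z.1 * a) - LC (z'.1 * a')| < 1 / Z := by
    rw [abs_mul, abs_of_pos hN0] at hd
    rw [lt_div_iff₀ hZ0]
    by_contra hcon
    rw [not_lt] at hcon
    have f0 : 0 ≤ |LC (z.1 * a) - LC (z'.1 * a')| := abs_nonneg _
    have f1 : 2 * ((m : ℝ) + 2) * Z * |LC (z.1 * a) - LC (z'.1 * a')| ≤
        N * |LC (z.1 * a) - LC (z'.1 * a')| := mul_le_mul_of_nonneg_right hN f0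
    have f2 : 2 * ((m : ℝ) + 2) * 1 ≤
        2 * ((m : ℝ) + 2) * (|LC (z.1 * a) - LC (z'.1 * a')| * Z) :=
      mul_le_mul_of_nonneg_left hcon (by positivity)
    have f3 : (0 : ℝ) ≤ m := Nat.cast_nonneg m
    nlinarith
  have hfin := spacing_LC (Nat.mul_pos t0 ha0) (Nat.mul_pos t0' ha0') hZle hlt
  rw [ha, ha']
  calc z.1 * (g * a) = g * (z.1 * a) := by ring
    _ = g * (z'.1 * a') := by rw [hfin]
    _ = z'.1 * (g * a') := by ring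

theorem KeyHyp.pair_lc (h : KeyHyp N m e w Lam U K T R P P₀ G₀ D₁ y)
    {z z' : ℕ × ℕ × (Fin m → ℕ)} (hz : z ∈ Lam ×ˢ U ×ˢ tup K m) (hz' : z' ∈ Lam ×ˢ U ×ˢ tup K m)
    (hF : Fz N m z = Fz N m z') {g d : ℕ} (hg : g ∣ z'.2.1) (hd : d ∣ z.2.1) :
    |(N : ℝ) * ((LC z.1 + LC d + ∑ i ∈ I1 m e, LC (z.2.2 i) - LC z'.1 - LC g) +
      (LC (z.2.1 / d * ∏ i ∈ I2 m e, z.2.2 i) -
        LC (z'.2.1 / g * ∏ i, z'.2.2 i)))| ≤ m + 2 := by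
  have hdf := h.lc_diff hz hz' hF
  obtain ⟨h1, h2⟩ := mem_product.1 hz
  obtain ⟨h2, h3⟩ := mem_product.1 h2
  obtain ⟨h1', h2'⟩ := mem_product.1 hz'
  obtain ⟨h2', h3'⟩ := mem_product.1 h2'
  rw [mem_tup] at h3 h3'
  have t0 := Nat.pos_of_ne_zero (h.lam1 _ h1).1.ne_zero
  have t0' := Nat.pos_of_ne_zero (h.lam1 _ h1').1.ne_zero
  have u0 := Nat.pos_of_ne_zero (h.u1 _ h2).1.ne_zero
  have u0' := Nat.pos_of_ne_zero (h.u1 _ h2').1.ne_zero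
  have pp : ∀ i, 0 < z.2.2 i := fun i => (h.k1 _ (h3 i)).pos
  have pp' : ∀ i, 0 < z'.2.2 i := fun i => (h.k1 _ (h3' i)).pos
  have p0 : 0 < ∏ i, z.2.2 i := prod_pos fun i _ => pp i
  have p0' : 0 < ∏ i, z'.2.2 i := prod_pos fun i _ => pp' i
  obtain ⟨a, ha⟩ := hd
  obtain ⟨b, hb⟩ := hg
  have hd0 : 0 < d := Nat.pos_of_mul_pos_right (ha ▸ u0)
  have ha0 : 0 < a := Nat.pos_of_mul_pos_left (ha ▸ u0)
  have hg0 : 0 < g := Nat.pos_of_mul_pos_right (hb ▸ u0')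
  have hb0 : 0 < b := Nat.pos_of_mul_pos_left (hb ▸ u0')
  have e1 : z.2.1 / d = a := by rw [ha]; exact Nat.mul_div_cancel_left a hd0
  have e2 : z'.2.1 / g = b := by rw [hb]; exact Nat.mul_div_cancel_left b hg0
  have e3 : LC (Mz z) = LC z.1 + (LC d + LC a + (∑ i ∈ I1 m e, LC (z.2.2 i) +
      LC (∏ i ∈ I2 m e, z.2.2 i))) := by
    unfold Mz
    rw [LC_mul t0 (Nat.mul_pos u0 p0), LC_mul u0 p0, ha, LC_mul hd0 ha0, prod_I e,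
      LC_mul (prod_pos fun i _ => pp i) (prod_pos fun i _ => pp i), LC_prod _ _ fun i _ => pp i]
  have e4 : LC (Mz z') = LC z'.1 + (LC g + LC b + LC (∏ i, z'.2.2 i)) := by
    unfold Mz
    rw [LC_mul t0' (Nat.mul_pos u0' p0'), LC_mul u0' p0', hb, LC_mul hg0 hb0]
  rw [e1, e2, LC_mul ha0 (prod_pos fun i _ => pp i), LC_mul hb0 p0']
  rw [e3, e4] at hdf
  convert hdf using 2
  ring

theorem card_I2 (m e : ℕ) : #(I2 m e) ≤ e := by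
  have h1 : #(I2 m e) ≤ #(Ico (m - e) m) := by
    refine card_le_card_of_injOn (fun i => (i : ℕ)) ?_ ?_
    · intro i hi
      rw [mem_coe, I2, mem_filter] at hi
      rw [mem_coe, mem_Ico]
      exact ⟨not_lt.1 hi.2, i.2⟩
    · intro i _ j _ hij
      exact Fin.ext hij
  rw [Nat.card_Ico] at h1
  omega

theorem KeyHyp.case2 (h : KeyHyp N m e w Lam U K T R P P₀ G₀ D₁ y)
    {z z' v v' : ℕ × ℕ × (Fin m → ℕ)} (hz : z ∈ Lam ×ˢ U ×ˢ tup K m)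
    (hz' : z' ∈ Lam ×ˢ U ×ˢ tup K m) (hv : v ∈ Lam ×ˢ U ×ˢ tup K m)
    (hv' : v' ∈ Lam ×ˢ U ×ˢ tup K m)
    (hF : Fz N m z = Fz N m z') (hF' : Fz N m v = Fz N m v')
    (hG : ((Nat.gcd (z.2.1 * ∏ i, z.2.2 i) (z'.2.1 * ∏ i, z'.2.2 i) : ℕ) : ℝ) < G₀)
    (hG' : ((Nat.gcd (v.2.1 * ∏ i, v.2.2 i) (v'.2.1 * ∏ i, v'.2.2 i) : ℕ) : ℝ) < G₀)
    {g d : ℕ} (hg : g = Nat.gcd z.2.1 z'.2.1) (hg' : g = Nat.gcd v.2.1 v'.2.1) (hgd : g ∣ d)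
    (hd : d ∣ z.2.1) (hd' : d ∣ v.2.1) (hD : D₁ ≤ d) (ht : z.1 = v.1) (ht' : z'.1 = v'.1)
    (hp : ∀ i : Fin m, (i : ℕ) < m - e → z.2.2 i = v.2.2 i) :
    z.2.1 = v.2.1 ∧ z'.2.1 = v'.2.1 ∧ (∀ i, z.2.2 i ∈ univ.image v.2.2) ∧
      (∀ i, z'.2.2 i ∈ univ.image v'.2.2) := by
  have L1 := h.pair_lc hz hz' hF (g := g) (d := d) (hg ▸ Nat.gcd_dvd_right _ _) hd
  have L2 := h.pair_lc hv hv' hF' (g := g) (d := d) (hg' ▸ Nat.gcd_dvd_right _ _) hd'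
  have hgz' : g ∣ z'.2.1 := hg ▸ Nat.gcd_dvd_right _ _
  have hgv' : g ∣ v'.2.1 := hg' ▸ Nat.gcd_dvd_right _ _
  obtain ⟨-, z2⟩ := mem_product.1 hz
  obtain ⟨z2, z3⟩ := mem_product.1 z2
  obtain ⟨-, z2'⟩ := mem_product.1 hz'
  obtain ⟨z2', z3'⟩ := mem_product.1 z2'
  obtain ⟨-, v2⟩ := mem_product.1 hv
  obtain ⟨v2, v3⟩ := mem_product.1 v2
  obtain ⟨-, v2'⟩ := mem_product.1 hv'
  obtain ⟨v2', v3'⟩ := mem_product.1 v2'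
  rw [mem_tup] at z3 z3' v3 v3'
  have zu0 := Nat.pos_of_ne_zero (h.u1 _ z2).1.ne_zero
  have zu0' := Nat.pos_of_ne_zero (h.u1 _ z2').1.ne_zero
  have vu0 := Nat.pos_of_ne_zero (h.u1 _ v2).1.ne_zero
  have vu0' := Nat.pos_of_ne_zero (h.u1 _ v2').1.ne_zero
  have hd0 : 0 < d := Nat.pos_of_dvd_of_pos hd zu0
  have hg0 : 0 < g := Nat.pos_of_dvd_of_pos hgd hd0
  have hsum : ∑ i ∈ I1 m e, LC (z.2.2 i) = ∑ i ∈ I1 m e, LC (v.2.2 i) := by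
    refine sum_congr rfl fun i hi => ?_
    rw [hp i (mem_filter.1 hi).2]
  -- coprimality
  have c1 := pair_cop (y := y) (P₀ := P₀) (G₀ := G₀) (p := z.2.2) (p' := z'.2.2)
    (I2 m e) zu0 (h.u2 _ z2) (h.u2 _ z2')
    (fun i => ⟨h.k1 _ (z3 i), (h.k2 _ (z3 i)).1⟩) (fun i => ⟨h.k1 _ (z3' i), (h.k2 _ (z3' i)).1⟩)
    h.yP h.GP hg hgd hd hG
  have c2 := pair_cop (y := y) (P₀ := P₀) (G₀ := G₀) (p := v.2.2) (p' := v'.2.2)
    (I2 m e) vu0 (h.u2 _ v2) (h.u2 _ v2')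
    (fun i => ⟨h.k1 _ (v3 i), (h.k2 _ (v3 i)).1⟩) (fun i => ⟨h.k1 _ (v3' i), (h.k2 _ (v3' i)).1⟩)
    h.yP h.GP hg' hgd hd' hG'
  -- sizes
  have D0 : 0 < D₁ := by linarith [h.G1, h.GD]
  have R0 : 0 < R := by linarith [h.R1]
  have P0 : 0 < P := by linarith [h.P1]
  have sE : ∀ u : ℕ, u ∈ U → d ∣ u → ∀ p : Fin m → ℕ, (∀ i, p i ∈ K) →
      ((u / d * ∏ i ∈ I2 m e, p i : ℕ) : ℝ) ≤ R / D₁ * P ^ e := by
    intro u hu hdu p hpK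
    have f1 : ((u / d : ℕ) : ℝ) ≤ R / D₁ := by
      obtain ⟨c, rfl⟩ := hdu
      rw [Nat.mul_div_cancel_left c hd0, le_div_iff₀ D0]
      have f2 := (h.u3 _ hu).2
      push_cast at f2
      nlinarith [Nat.cast_nonneg (α := ℝ) c]
    have f3 := prod_le_real (I2 m e) p
      fun i _ => (h.k2 _ (hpK i)).2
    have f4 : P ^ #(I2 m e) ≤ P ^ e :=
      pow_le_pow_right₀ h.P1 (card_I2 m e)
    rw [Nat.cast_mul]
    exact mul_le_mul f1 (f3.trans f4) (Nat.cast_nonneg _) (by positivity)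
  have sE' : ∀ u : ℕ, u ∈ U → g ∣ u → ∀ p : Fin m → ℕ, (∀ i, p i ∈ K) →
      ((u / g * ∏ i, p i : ℕ) : ℝ) ≤ R * P ^ m := by
    intro u hu hgu p hpK
    have f1 : ((u / g : ℕ) : ℝ) ≤ R := by
      refine le_trans ?_ (h.u3 _ hu).2
      exact_mod_cast Nat.div_le_self u g
    have f3 := prod_le_real univ p fun i _ => (h.k2 _ (hpK i)).2
    rw [card_univ, Fintype.card_fin] at f3
    rw [Nat.cast_mul]
    exact mul_le_mul f1 f3 (Nat.cast_nonneg _) R0.le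
  have a1 := sE _ z2 hd _ z3
  have a2 := sE _ v2 hd' _ v3
  have a3 := sE' _ z2' hgz' _ z3'
  have a4 := sE' _ v2' hgv' _ v3'
  have q1 : 0 < z.2.1 / d * ∏ i ∈ I2 m e, z.2.2 i :=
    Nat.mul_pos (Nat.div_pos (Nat.le_of_dvd zu0 hd) hd0) (prod_pos fun i _ => (h.k1 _ (z3 i)).pos)
  have q2 : 0 < v.2.1 / d * ∏ i ∈ I2 m e, v.2.2 i :=
    Nat.mul_pos (Nat.div_pos (Nat.le_of_dvd vu0 hd') hd0) (prod_pos fun i _ => (h.k1 _ (v3 i)).pos)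
  have q3 : 0 < z'.2.1 / g * ∏ i, z'.2.2 i :=
    Nat.mul_pos (Nat.div_pos (Nat.le_of_dvd zu0' hgz') hg0)
      (prod_pos fun i _ => (h.k1 _ (z3' i)).pos)
  have q4 : 0 < v'.2.1 / g * ∏ i, v'.2.2 i :=
    Nat.mul_pos (Nat.div_pos (Nat.le_of_dvd vu0' hgv') hg0)
      (prod_pos fun i _ => (h.k1 _ (v3' i)).pos)
  rw [ht, ht', hsum] at L1
  generalize hX1 : z.2.1 / d * ∏ i ∈ I2 m e, z.2.2 i = X1 at *
  generalize hX2 : v.2.1 / d * ∏ i ∈ I2 m e, v.2.2 i = X2 at *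
  generalize hX3 : z'.2.1 / g * ∏ i, z'.2.2 i = X3 at *
  generalize hX4 : v'.2.1 / g * ∏ i, v'.2.2 i = X4 at *
  have hkey : X1 * X4 = X2 * X3 := by
    set Z : ℝ := (R / D₁ * P ^ e * (R * P ^ m)) ^ 2 with hZ
    have hZ0 : 0 < Z := by positivity
    have hN : 4 * ((m : ℝ) + 2) * Z ≤ N := h.H4
    have hN0 : (0 : ℝ) < N := lt_of_lt_of_le (by positivity) hN
    apply spacing_LC (Nat.mul_pos q1 q4) (Nat.mul_pos q2 q3) (Z := Z)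
    · rw [hZ, sq]
      have f1 : ((X1 * X4 : ℕ) : ℝ) ≤ R / D₁ * P ^ e * (R * P ^ m) := by
        rw [Nat.cast_mul]
        exact mul_le_mul a1 a4 (Nat.cast_nonneg _) (by positivity)
      have f2 : ((X2 * X3 : ℕ) : ℝ) ≤ R / D₁ * P ^ e * (R * P ^ m) := by
        rw [Nat.cast_mul]
        exact mul_le_mul a2 a3 (Nat.cast_nonneg _) (by positivity)
      exact mul_le_mul f1 f2 (Nat.cast_nonneg _) (by positivity)
    · rw [LC_mul q1 q4, LC_mul q2 q3]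
      generalize LC v.1 + LC d + ∑ i ∈ I1 m e, LC (v.2.2 i) - LC v'.1 - LC g = c at *
      have f1 : |(N : ℝ) * (LC X1 + LC X4 - (LC X2 + LC X3))| ≤ 2 * (m + 2) := by
        have f2 : (N : ℝ) * (LC X1 + LC X4 - (LC X2 + LC X3)) =
            N * (c + (LC X1 - LC X3)) - N * (c + (LC X2 - LC X4)) := by ring
        rw [f2]
        calc _ ≤ |(N : ℝ) * (c + (LC X1 - LC X3))| + |(N : ℝ) * (c + (LC X2 - LC X4))| :=
              abs_sub _ _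
          _ ≤ 2 * (m + 2) := by linarith
      rw [abs_mul, abs_of_pos hN0] at f1
      rw [lt_div_iff₀ hZ0]
      by_contra hcon
      rw [not_lt] at hcon
      have f0 : 0 ≤ |LC X1 + LC X4 - (LC X2 + LC X3)| := abs_nonneg _
      generalize |LC X1 + LC X4 - (LC X2 + LC X3)| = δ at *
      have f3 : 4 * ((m : ℝ) + 2) * Z * δ ≤ N * δ := mul_le_mul_of_nonneg_right hN f0
      have f4 : 4 * ((m : ℝ) + 2) * 1 ≤ 4 * ((m : ℝ) + 2) * (δ * Z) :=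
        mul_le_mul_of_nonneg_left hcon (by positivity)
      have f5 : (0 : ℝ) ≤ m := Nat.cast_nonneg m
      nlinarith
  -- `X1 = X2`, `X3 = X4`
  have r1 : X1 = X2 ∧ X4 = X3 := smooth_rough q1 c1 c2 hkey
  obtain ⟨r1, r2⟩ := r1
  -- splitting
  have co : ∀ (u c : ℕ) (I : Finset (Fin m)) (p : Fin m → ℕ), u ∈ U → c ∣ u → (∀ i, p i ∈ K) →
      Nat.Coprime (u / c) (∏ i ∈ I, p i) := by
    intro u c I p hu hcu hpK
    refine cop_smooth (y := y) (P₀ := P₀) I p ?_ h.yP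
      fun i _ => ⟨h.k1 _ (hpK i), (h.k2 _ (hpK i)).1⟩
    intro q hq hqd
    exact h.u2 _ hu q hq (hqd.trans (Nat.div_dvd_of_dvd hcu))
  have s1 := smooth_rough (a := z.2.1 / d) (b := v.2.1 / d)
    (P := ∏ i ∈ I2 m e, z.2.2 i) (Q := ∏ i ∈ I2 m e, v.2.2 i)
    (Nat.div_pos (Nat.le_of_dvd zu0 hd) hd0) (co _ _ _ _ z2 hd v3) (co _ _ _ _ v2 hd' z3)
    (by rw [hX1, hX2, r1])
  have s2 := smooth_rough (a := z'.2.1 / g) (b := v'.2.1 / g)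
    (P := ∏ i, z'.2.2 i) (Q := ∏ i, v'.2.2 i)
    (Nat.div_pos (Nat.le_of_dvd zu0' hgz') hg0) (co _ _ _ _ z2' hgz' v3')
    (co _ _ _ _ v2' hgv' z3') (by rw [hX3, hX4, r2])
  refine ⟨?_, ?_, ?_, ?_⟩
  · rw [← Nat.div_mul_cancel hd, s1.1, Nat.div_mul_cancel hd']
  · rw [← Nat.div_mul_cancel hgz', s2.1, Nat.div_mul_cancel hgv']
  · intro i
    by_cases hi : (i : ℕ) < m - e
    · rw [hp i hi]
      exact mem_image_of_mem _ (mem_univ i)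
    · exact mem_of_prod_eq _ (fun i => h.k1 _ (z3 i)) (fun i => h.k1 _ (v3 i)) s1.2
        (mem_filter.2 ⟨mem_univ i, hi⟩)
  · intro i
    exact mem_of_prod_eq _ (fun i => h.k1 _ (z3' i)) (fun i => h.k1 _ (v3' i)) s2.2 (mem_univ i)

end

end Pool.Agent.Helper33.PS3
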