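import Mathlib
import Pool.Agent.Helper33.PS3.KeyCount

/-!
# PS3 (c): the key count, conclusion
-/

namespace Pool.Agent.Helper33.PS3

open Finset Pool.Agent.Helper58.LT

theorem en_le_fiber {τ A : Type*} [DecidableEq A] (T : Finset τ) (F : τ → A) (C : ℕ)
    (h : ∀ x ∈ T, #{y ∈ T | F x = F y} ≤ C) : #{z ∈ T ×ˢ T | F z.1 = F z.2} ≤ #T * C := by
  classical
  have h1 : #{z ∈ T ×ˢ T | F z.1 = F z.2} = ∑ x ∈ T, #{y ∈ T | F x = F y} := by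
    rw [Finset.card_filter, Finset.sum_product]
    apply Finset.sum_congr rfl
    intro x _
    rw [Finset.card_filter]
  rw [h1]
  calc ∑ x ∈ T, #{y ∈ T | F x = F y} ≤ ∑ _x ∈ T, C := Finset.sum_le_sum h
    _ = #T * C := by rw [Finset.sum_const, smul_eq_mul]

theorem card_I1 {m e : ℕ} (he : e ≤ m) : #(I1 m e) = m - e := by
  have h1 : #(I1 m e) ≤ #(range (m - e)) := by
    refine card_le_card_of_injOn (fun i => (i : ℕ)) ?_ ?_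
    · intro i hi
      rw [mem_coe, I1, mem_filter] at hi
      rw [mem_coe, mem_range]
      exact hi.2
    · intro i _ j _ hij
      exact Fin.ext hij
  rw [card_range] at h1
  have h2 := card_I2 m e
  have h3 : #(I1 m e) + #(I2 m e) = m := by
    unfold I1 I2
    rw [card_filter_add_card_filter_not, card_univ, Fintype.card_fin]
  omega

/-- the first coordinates of a tuple -/
def cut (m e : ℕ) (p : Fin m → ℕ) : Fin m → ℕ := fun i => if (i : ℕ) < m - e then p i else 1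

theorem card_cut {m e : ℕ} (he : e ≤ m) (K : Finset ℕ) :
    #(Fintype.piFinset (fun i : Fin m => if (i : ℕ) < m - e then K else {1})) = #K ^ (m - e) := by
  rw [Fintype.card_piFinset, prod_I e]
  have h2 : ∏ i ∈ I2 m e, #(if (i : ℕ) < m - e then K else {1}) = 1 := by
    refine prod_eq_one fun i hi => ?_
    rw [if_neg (mem_filter.1 hi).2, card_singleton]
  rw [h2, mul_one, ← card_I1 he, ← prod_const]
  refine prod_congr rfl fun i hi => ?_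
  rw [card_I1 he, if_pos (mem_filter.1 hi).2]

/-- the pairs (divisor of size about `D₁`, divisor of it) -/
def DS (w X : ℕ) : Finset (Σ _ : ℕ, ℕ) :=
  ((Icc 1 X).filter (fun d => Squarefree d ∧ #d.primeFactors ≤ w)).sigma (fun d => d.divisors)

theorem card_DS (w X : ℕ) : #(DS w X) ≤ X * 2 ^ w := by
  unfold DS
  rw [card_sigma]
  calc _ ≤ ∑ _d ∈ (Icc 1 X).filter (fun d => Squarefree d ∧ #d.primeFactors ≤ w), 2 ^ w := by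
        refine sum_le_sum fun d hd => ?_
        have h1 := (mem_filter.1 hd).2
        exact card_divisors_le h1.1 h1.2
    _ = #((Icc 1 X).filter (fun d => Squarefree d ∧ #d.primeFactors ≤ w)) * 2 ^ w := by
        rw [sum_const, smul_eq_mul]
    _ ≤ X * 2 ^ w := by
        refine Nat.mul_le_mul_right _ ((card_filter_le _ _).trans ?_)
        rw [Nat.card_Icc]
        omega

variable {N m e w : ℕ} {Lam U K : Finset ℕ} {T R P P₀ G₀ D₁ y : ℝ}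

theorem KeyHyp.count1 (h : KeyHyp N m e w Lam U K T R P P₀ G₀ D₁ y) :
    #{a ∈ (Lam ×ˢ U ×ˢ tup K m) ×ˢ (Lam ×ˢ U ×ˢ tup K m) | Fz N m a.1 = Fz N m a.2 ∧
      G₀ ≤ ((Nat.gcd (a.1.2.1 * ∏ i, a.1.2.2 i) (a.2.2.1 * ∏ i, a.2.2.2 i) : ℕ) : ℝ)} ≤
      #Lam * #U * #K ^ m * (2 ^ (2 * (2 * w + m)) * (2 * w + m) ^ m) := by
  classical
  have h1 := en_le_fiber (Lam ×ˢ U ×ˢ tup K m) Mz (2 ^ (2 * (2 * w + m)) * (2 * w + m) ^ m)
    (fun z hz => fiber1 h.lam1 h.u1 h.k1 z hz)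
  rw [card_product, card_product, card_tup, ← mul_assoc (#Lam) (#U)] at h1
  refine le_trans (card_le_card ?_) h1
  intro a ha
  rw [mem_filter, mem_product] at ha
  rw [mem_filter, mem_product]
  exact ⟨ha.1, h.case1 ha.1.1 ha.1.2 ha.2.1 ha.2.2⟩

theorem KeyHyp.count2 (h : KeyHyp N m e w Lam U K T R P P₀ G₀ D₁ y) :
    #{a ∈ (Lam ×ˢ U ×ˢ tup K m) ×ˢ (Lam ×ˢ U ×ˢ tup K m) | Fz N m a.1 = Fz N m a.2 ∧
      ¬ G₀ ≤ ((Nat.gcd (a.1.2.1 * ∏ i, a.1.2.2 i) (a.2.2.1 * ∏ i, a.2.2.2 i) : ℕ) : ℝ)} ≤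
      (m ^ m * m ^ m) * (#Lam * (#Lam * (#K ^ (m - e) * (⌊D₁ * y⌋₊ * 2 ^ w)))) := by
  classical
  have hdd : ∀ u g : ℕ, ∃ d, (u ∈ U → g ∣ u → (g : ℝ) ≤ D₁ →
      g ∣ d ∧ d ∣ u ∧ D₁ ≤ d ∧ (d : ℝ) ≤ D₁ * y) := by
    intro u g
    by_cases hh : u ∈ U ∧ g ∣ u ∧ (g : ℝ) ≤ D₁
    · obtain ⟨d, hd⟩ := exists_mid_divisor (Nat.pos_of_ne_zero (h.u1 _ hh.1).1.ne_zero)
        (h.u2 _ hh.1) hh.2.1 hh.2.2 (h.u3 _ hh.1).1 h.y1
      exact ⟨d, fun _ _ _ => hd⟩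
    · exact ⟨0, fun a b c => absurd ⟨a, b, c⟩ hh⟩
  choose dd hdd using hdd
  set S := {a ∈ (Lam ×ˢ U ×ˢ tup K m) ×ˢ (Lam ×ˢ U ×ˢ tup K m) | Fz N m a.1 = Fz N m a.2 ∧
      ¬ G₀ ≤ ((Nat.gcd (a.1.2.1 * ∏ i, a.1.2.2 i) (a.2.2.1 * ∏ i, a.2.2.2 i) : ℕ) : ℝ)} with hS
  -- facts about a pair
  have facts : ∀ a ∈ S, a.1 ∈ Lam ×ˢ U ×ˢ tup K m ∧ a.2 ∈ Lam ×ˢ U ×ˢ tup K m ∧
      Fz N m a.1 = Fz N m a.2 ∧
      ((Nat.gcd (a.1.2.1 * ∏ i, a.1.2.2 i) (a.2.2.1 * ∏ i, a.2.2.2 i) : ℕ) : ℝ) < G₀ ∧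
      a.1.1 ∈ Lam ∧ a.2.1 ∈ Lam ∧ a.1.2.1 ∈ U ∧ a.2.2.1 ∈ U ∧ (∀ i, a.1.2.2 i ∈ K) ∧
      (∀ i, a.2.2.2 i ∈ K) := by
    intro a ha
    rw [hS, mem_filter] at ha
    obtain ⟨ha, hF, hG⟩ := ha
    obtain ⟨ha1, ha2⟩ := mem_product.1 ha
    rw [not_le] at hG
    obtain ⟨b1, b2⟩ := mem_product.1 ha1
    obtain ⟨b2, b3⟩ := mem_product.1 b2
    obtain ⟨c1, c2⟩ := mem_product.1 ha2
    obtain ⟨c2, c3⟩ := mem_product.1 c2
    exact ⟨ha1, ha2, hF, hG, b1, c1, b2, c2, mem_tup.1 b3, mem_tup.1 c3⟩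
  have hgd : ∀ a ∈ S, ∀ g, g = Nat.gcd a.1.2.1 a.2.2.1 →
      g ∣ dd a.1.2.1 g ∧ dd a.1.2.1 g ∣ a.1.2.1 ∧ D₁ ≤ dd a.1.2.1 g ∧
        (dd a.1.2.1 g : ℝ) ≤ D₁ * y := by
    intro a ha g hg
    obtain ⟨-, -, -, hG, -, -, u1, u2, k1, k2⟩ := facts a ha
    refine hdd _ _ u1 (hg ▸ Nat.gcd_dvd_left _ _) ?_
    have h1 : g ∣ Nat.gcd (a.1.2.1 * ∏ i, a.1.2.2 i) (a.2.2.1 * ∏ i, a.2.2.2 i) := by
      rw [hg]
      exact Nat.dvd_gcd ((Nat.gcd_dvd_left _ _).trans (dvd_mul_right _ _))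
        ((Nat.gcd_dvd_right _ _).trans (dvd_mul_right _ _))
    have h2 : 0 < Nat.gcd (a.1.2.1 * ∏ i, a.1.2.2 i) (a.2.2.1 * ∏ i, a.2.2.2 i) :=
      Nat.gcd_pos_of_pos_left _ (Nat.mul_pos (Nat.pos_of_ne_zero (h.u1 _ u1).1.ne_zero)
        (prod_pos fun i _ => (h.k1 _ (k1 i)).pos))
    have h3 : (g : ℝ) ≤
        ((Nat.gcd (a.1.2.1 * ∏ i, a.1.2.2 i) (a.2.2.1 * ∏ i, a.2.2.2 i) : ℕ) : ℝ) := by
      exact_mod_cast Nat.le_of_dvd h2 h1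
    have h4 := h.GD
    linarith
  set κ : (ℕ × ℕ × (Fin m → ℕ)) × (ℕ × ℕ × (Fin m → ℕ)) →
      ℕ × ℕ × (Fin m → ℕ) × (Σ _ : ℕ, ℕ) := fun a =>
    (a.1.1, a.2.1, cut m e a.1.2.2, ⟨dd a.1.2.1 (Nat.gcd a.1.2.1 a.2.2.1),
      Nat.gcd a.1.2.1 a.2.2.1⟩) with hκ
  have hmaps : ∀ a ∈ S, κ a ∈ Lam ×ˢ Lam ×ˢ
      Fintype.piFinset (fun i : Fin m => if (i : ℕ) < m - e then K else {1}) ×ˢ
        DS w ⌊D₁ * y⌋₊ := by
    intro a ha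
    obtain ⟨-, -, -, -, t1, t2, u1, u2, k1, k2⟩ := facts a ha
    obtain ⟨g1, g2, g3, g4⟩ := hgd a ha _ rfl
    rw [hκ]
    simp only [mem_product]
    refine ⟨t1, t2, ?_, ?_⟩
    · rw [Fintype.mem_piFinset]
      intro i
      unfold cut
      by_cases hi : (i : ℕ) < m - e
      · rw [if_pos hi, if_pos hi]
        exact k1 i
      · rw [if_neg hi, if_neg hi]
        exact mem_singleton_self 1
    · unfold DS
      have hu0 := (h.u1 _ u1).1.ne_zero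
      have hd0 : 0 < dd a.1.2.1 (Nat.gcd a.1.2.1 a.2.2.1) :=
        Nat.pos_of_dvd_of_pos g2 (Nat.pos_of_ne_zero hu0)
      rw [mem_sigma, mem_filter, mem_Icc, Nat.mem_divisors]
      refine ⟨⟨⟨hd0, Nat.le_floor g4⟩, (h.u1 _ u1).1.squarefree_of_dvd g2, ?_⟩, g1, hd0.ne'⟩
      exact (card_le_card (Nat.primeFactors_mono g2 hu0)).trans (h.u1 _ u1).2
  have hfib : ∀ b ∈ Lam ×ˢ Lam ×ˢ
      Fintype.piFinset (fun i : Fin m => if (i : ℕ) < m - e then K else {1}) ×ˢ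
        DS w ⌊D₁ * y⌋₊, #{a ∈ S | κ a = b} ≤ m ^ m * m ^ m := by
    intro b _
    rcases ({a ∈ S | κ a = b}).eq_empty_or_nonempty with he | ⟨a₀, ha₀⟩
    · rw [he, card_empty]
      exact Nat.zero_le _
    rw [mem_filter] at ha₀
    obtain ⟨ha₀, hb₀⟩ := ha₀
    obtain ⟨m1, m2, F0, G0, t1, t2, u1, u2, k1, k2⟩ := facts a₀ ha₀
    have main : ∀ a ∈ S, κ a = b → a.1.1 = a₀.1.1 ∧ a.2.1 = a₀.2.1 ∧ a.1.2.1 = a₀.1.2.1 ∧
        a.2.2.1 = a₀.2.2.1 ∧ (∀ i, a.1.2.2 i ∈ univ.image a₀.1.2.2) ∧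
        (∀ i, a.2.2.2 i ∈ univ.image a₀.2.2.2) := by
      intro a ha hab
      obtain ⟨m1', m2', F0', G0', -, -, -, -, -, -⟩ := facts a ha
      have hab' := hab.trans hb₀.symm
      rw [hκ] at hab'
      simp only [Prod.mk.injEq, Sigma.mk.injEq, heq_eq_eq] at hab'
      obtain ⟨e1, e2, e3, e4, e5⟩ := hab'
      obtain ⟨g1, g2, g3, g4⟩ := hgd a ha _ rfl
      obtain ⟨g1', g2', g3', g4'⟩ := hgd a₀ ha₀ _ rfl
      have hc := h.case2 m1' m2' m1 m2 F0' F0 G0' G0 (g := Nat.gcd a.1.2.1 a.2.2.1)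
        (d := dd a.1.2.1 (Nat.gcd a.1.2.1 a.2.2.1)) rfl e5 g1 g2 (by rw [e4]; exact g2') g3 e1 e2
        (by
          intro i hi
          have h1 := congrFun e3 i
          unfold cut at h1
          rw [if_pos hi, if_pos hi] at h1
          exact h1)
      exact ⟨e1, e2, hc⟩
    have hinj : #{a ∈ S | κ a = b} ≤
        #(tup (univ.image a₀.1.2.2) m ×ˢ tup (univ.image a₀.2.2.2) m) := by
      refine card_le_card_of_injOn (fun a => (a.1.2.2, a.2.2.2)) ?_ ?_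
      · intro a ha
        rw [mem_coe, mem_filter] at ha
        obtain ⟨-, -, -, -, h5, h6⟩ := main a ha.1 ha.2
        rw [mem_coe, mem_product, mem_tup, mem_tup]
        exact ⟨h5, h6⟩
      · intro a ha a' ha' heq
        rw [mem_coe, mem_filter] at ha ha'
        obtain ⟨h1, h2, h3, h4, -, -⟩ := main a ha.1 ha.2
        obtain ⟨h1', h2', h3', h4', -, -⟩ := main a' ha'.1 ha'.2
        simp only [Prod.mk.injEq] at heq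
        refine Prod.ext (Prod.ext (h1.trans h1'.symm) (Prod.ext (h3.trans h3'.symm) heq.1))
          (Prod.ext (h2.trans h2'.symm) (Prod.ext (h4.trans h4'.symm) heq.2))
    refine hinj.trans ?_
    rw [card_product, card_tup, card_tup]
    have hc : ∀ p : Fin m → ℕ, #(univ.image p) ≤ m := by
      intro p
      calc #(univ.image p) ≤ #(univ : Finset (Fin m)) := card_image_le
        _ = m := by simp
    exact Nat.mul_le_mul (Nat.pow_le_pow_left (hc _) _) (Nat.pow_le_pow_left (hc _) _)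
  have hfin := card_le_mul_card_image_of_maps_to hmaps (m ^ m * m ^ m) hfib
  refine hfin.trans ?_
  rw [card_product, card_product, card_product, card_cut h.em]
  exact Nat.mul_le_mul_left _ (Nat.mul_le_mul_left _ (Nat.mul_le_mul_left _
    (Nat.mul_le_mul_left _ (card_DS _ _))))

/-- the key count -/
theorem KeyHyp.count (h : KeyHyp N m e w Lam U K T R P P₀ G₀ D₁ y) :
    (en (Lam ×ˢ U ×ˢ tup K m) (Fz N m) : ℝ) ≤
      #Lam * #U * (#K : ℝ) ^ m * (2 ^ (2 * (2 * w + m)) * (2 * w + m) ^ m) +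
      (#Lam : ℝ) ^ 2 * (#K : ℝ) ^ (m - e) * (D₁ * y) * 2 ^ w * ((m : ℝ) ^ m * (m : ℝ) ^ m) := by
  classical
  have h1 := h.count1
  have h2 := h.count2
  have h3 : en (Lam ×ˢ U ×ˢ tup K m) (Fz N m) =
      #{a ∈ (Lam ×ˢ U ×ˢ tup K m) ×ˢ (Lam ×ˢ U ×ˢ tup K m) | Fz N m a.1 = Fz N m a.2 ∧
      G₀ ≤ ((Nat.gcd (a.1.2.1 * ∏ i, a.1.2.2 i) (a.2.2.1 * ∏ i, a.2.2.2 i) : ℕ) : ℝ)} +
      #{a ∈ (Lam ×ˢ U ×ˢ tup K m) ×ˢ (Lam ×ˢ U ×ˢ tup K m) | Fz N m a.1 = Fz N m a.2 ∧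
      ¬ G₀ ≤ ((Nat.gcd (a.1.2.1 * ∏ i, a.1.2.2 i) (a.2.2.1 * ∏ i, a.2.2.2 i) : ℕ) : ℝ)} := by
    unfold en
    rw [← card_filter_add_card_filter_not (s := {z ∈ (Lam ×ˢ U ×ˢ tup K m) ×ˢ
      (Lam ×ˢ U ×ˢ tup K m) | Fz N m z.1 = Fz N m z.2}) (fun a => G₀ ≤ ((Nat.gcd
        (a.1.2.1 * ∏ i, a.1.2.2 i) (a.2.2.1 * ∏ i, a.2.2.2 i) : ℕ) : ℝ)), filter_filter,
      filter_filter]
  have h4 : (en (Lam ×ˢ U ×ˢ tup K m) (Fz N m) : ℝ) ≤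
      ((#Lam * #U * #K ^ m * (2 ^ (2 * (2 * w + m)) * (2 * w + m) ^ m) : ℕ) : ℝ) +
      (((m ^ m * m ^ m) * (#Lam * (#Lam * (#K ^ (m - e) * (⌊D₁ * y⌋₊ * 2 ^ w)))) : ℕ) : ℝ) := by
    rw [h3]
    exact_mod_cast add_le_add h1 h2
  refine h4.trans ?_
  have h5 : 0 ≤ D₁ * y := by
    have := h.y1
    have := h.GD
    have := h.G1
    have : 0 ≤ D₁ := by linarith
    positivity
  have h6 := Nat.floor_le h5
  push_cast
  refine add_le_add le_rfl ?_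
  have h7 : (0 : ℝ) ≤ (#Lam : ℝ) ^ 2 * (#K : ℝ) ^ (m - e) * 2 ^ w * ((m : ℝ) ^ m * (m : ℝ) ^ m) := by
    positivity
  calc _ = (#Lam : ℝ) ^ 2 * (#K : ℝ) ^ (m - e) * 2 ^ w * ((m : ℝ) ^ m * (m : ℝ) ^ m) *
        (⌊D₁ * y⌋₊ : ℝ) := by ring
    _ ≤ (#Lam : ℝ) ^ 2 * (#K : ℝ) ^ (m - e) * 2 ^ w * ((m : ℝ) ^ m * (m : ℝ) ^ m) *
        (D₁ * y) := mul_le_mul_of_nonneg_left h6 h7
    _ = _ := by ring

end Pool.Agent.Helper33.PS3
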